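import Mathlib
import Pool.Agent.W_96b415_h42.Dense

/-!
# Few distinct distances and a dense part in a progression: points on curves

See the file `LargeEnergy.lean` for an outline of the proof.  Here `Q` is contained in a progression,
and the dependence on the doubling constant is polynomial.
-/

set_option autoImplicit false

open scoped Pointwise

namespace Pool.Agent.Results.MP_96b415_co.DenseProgressions

/-- The number of distinct distances spanned by `P` (counted through their squares). -/
noncomputable def numDist (P : Finset (ℝ × ℝ)) : ℕ :=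
  (P.offDiag.image (fun pq : (ℝ × ℝ) × (ℝ × ℝ) =>
    (pq.1.1 - pq.2.1) ^ 2 + (pq.1.2 - pq.2.2) ^ 2)).card

/-- `Q` is contained in a generalized arithmetic progression
`{o + x 1 • a 1 + ... + x r • a r : x i ∈ ℤ, |x i| ≤ H}` of rank `r` in the plane; the base
point `o` and the vectors `a i` are arbitrary. -/
def InProgression (r : ℕ) (H : ℝ) (Q : Finset (ℝ × ℝ)) : Prop :=
  ∃ (o : ℝ × ℝ) (a : Fin r → ℝ × ℝ), ∀ p ∈ Q, ∃ x : Fin r → ℤ,
    (∀ i, |((x i : ℤ) : ℝ)| ≤ H) ∧ p = o + ∑ i, ((x i : ℤ) : ℝ) • a i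

/-- For all `A`, `r`, `d` and `ε > 0` there is `M` such that the following holds for every set `P` of
`n ≥ 2` points of the plane, every subset `Q` of `P` and every real `L`: if `Q` lies in a generalized
arithmetic progression of rank `r` with coefficients bounded by `|Q| ^ A`, `|Q + Q| ≤ L |Q|`, and `P`
spans at most `|Q| / 6` distinct distances, then every curve given by a nonzero polynomial of degree
at most `d` contains at most `M L ^ 50 n ^ (1 / 2 + ε)` points of `P`. -/
theorem result (A : ℝ) (r d : ℕ) (ε : ℝ) (hε : 0 < ε) :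
    ∃ M : ℝ, ∀ (P Q : Finset (ℝ × ℝ)) (L : ℝ), 2 ≤ P.card → Q ⊆ P →
      InProgression r ((Q.card : ℝ) ^ A) Q →
      ((Q + Q).card : ℝ) ≤ L * (Q.card : ℝ) →
      (numDist P : ℝ) ≤ (Q.card : ℝ) / 6 →
      ∀ f : MvPolynomial (Fin 2) ℝ, f ≠ 0 → f.totalDegree ≤ d →
        ((P.filter (fun x : ℝ × ℝ => MvPolynomial.eval ![x.1, x.2] f = 0)).card : ℝ)
          ≤ M * L ^ 50 * (P.card : ℝ) ^ ((1 : ℝ) / 2 + ε) := by
  obtain ⟨M, -, h⟩ := Pool.Agent.W_96b415_h42.dense_gap A r d ε hε
  exact ⟨M, h⟩

end Pool.Agent.Results.MP_96b415_co.DenseProgressions
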