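import Mathlib
import Pool.Agent.W_96b415_h42.Small

/-!
# Few distinct distances: the additive energy of the points on a curve

The points of `P` on a curve which contains at least `n ^ (1 / 2 + δ)` of them have additive energy
`o` of the cube of their number.  By the theorems of Balog, Szemeredi and Gowers and of Freiman
(for the plane, from a theorem for integers by a generic functional) this follows from the case of
progressions.
-/

set_option autoImplicit false

namespace Pool.Agent.Results.MP_96b415_co.EnergyOnCurves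

/-- The number of distinct distances spanned by `P` (counted through their squares). -/
noncomputable def numDist (P : Finset (ℝ × ℝ)) : ℕ :=
  (P.offDiag.image (fun pq : (ℝ × ℝ) × (ℝ × ℝ) =>
    (pq.1.1 - pq.2.1) ^ 2 + (pq.1.2 - pq.2.2) ^ 2)).card

/-- The additive energy of `S`: the number of quadruples `(a, b, c, d)` of points of `S` with
`a - b = c - d`. -/
noncomputable def energy (S : Finset (ℝ × ℝ)) : ℕ :=
  (((S ×ˢ S) ×ˢ (S ×ˢ S)).filter
    (fun q : ((ℝ × ℝ) × (ℝ × ℝ)) × ((ℝ × ℝ) × (ℝ × ℝ)) => q.1.1 - q.1.2 = q.2.1 - q.2.2)).card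

/-- For all `C`, `K`, `d` and `ε > 0` there is `M` such that the following holds for every set `P` of
`n ≥ 2` points of the plane which spans at most `n / 6` distinct distances, or at most
`C n / √(log n)` distinct distances: if `S` is a set of points of `P` on a curve given by a nonzero
polynomial of degree at most `d` and the additive energy of `S` is at least `|S| ^ 3 / K`, then
`|S| ≤ M n ^ (1 / 2 + ε)`. -/
theorem result (C K : ℝ) (d : ℕ) (ε : ℝ) (hε : 0 < ε) :
    ∃ M : ℝ, ∀ P S : Finset (ℝ × ℝ), 2 ≤ P.card →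
      ((numDist P : ℝ) ≤ (P.card : ℝ) / 6 ∨
        (numDist P : ℝ) ≤ C * (P.card : ℝ) / Real.sqrt (Real.log (P.card : ℝ))) →
      S ⊆ P → (S.card : ℝ) ^ 3 ≤ K * (energy S : ℝ) →
      ∀ f : MvPolynomial (Fin 2) ℝ, f ≠ 0 → f.totalDegree ≤ d →
        (∀ x ∈ S, MvPolynomial.eval ![x.1, x.2] f = 0) →
        (S.card : ℝ) ≤ M * (P.card : ℝ) ^ ((1 : ℝ) / 2 + ε) := by
  obtain ⟨M, -, h⟩ := Pool.Agent.W_96b415_h42.large_energy C K d ε hε
  exact ⟨M, fun P S hP hD => h P hP hD S⟩

end Pool.Agent.Results.MP_96b415_co.EnergyOnCurves
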