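import Mathlib
import Pool.Agent.W_96b415_h42.Dense

/-!
# Few distinct distances and a subset of large additive energy: points on curves

Outline of the proof.  By the theorem of Balog, Szemeredi and Gowers we may assume `|Q + Q| ≤ K |Q|`
and, by Freiman's theorem, that `Q` is covered by boundedly many generalized progressions of bounded
rank and polynomial size.  Let `X` be the set of points of `P` on the curve.
1. Every `x` in `X` sees at most `|Q| / 3` distances to `Q`, so it lies on the bisectors of at least
   `2 |Q| ^ 2` pairs of pairs of points of `Q` with non-parallel differences `I`, `J`.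
2. For fixed `I`, `J` these points `x` are given by two linear equations whose right hand sides lie
   in progressions; so they lie in boundedly many progressions of bounded rank, and there are at
   most `M n ^ (1 / 2 + ε)` of them (our theorem on subsets of progressions, which uses a divisor
   bound of Chang type in a sharp form: points of a progression on an arbitrary hyperbola).
3. For fixed `I` the number of bisected pairs with difference `I` is at most the number of
   differences perpendicular to `I`, and the number of perpendicular pairs of differences of `Q` is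
   at most `|Q| ^ (1 + ε)`: a set of small doubling with `n` points has at most `C (n / k ^ 2 + 1)`
   directions with `k` parallel differences (elementary substitute for the theorem of Szemeredi and
   Trotter: parallelogram cells of minimal area), and lines contain few points of `Q`.
-/

set_option autoImplicit false

namespace Pool.Agent.Results.MP_96b415_co.LargeEnergy

/-- The number of distinct distances spanned by `P` (counted through their squares). -/
noncomputable def numDist (P : Finset (ℝ × ℝ)) : ℕ :=
  (P.offDiag.image (fun pq : (ℝ × ℝ) × (ℝ × ℝ) =>
    (pq.1.1 - pq.2.1) ^ 2 + (pq.1.2 - pq.2.2) ^ 2)).card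

/-- The additive energy of `Q`: the number of quadruples `(a, b, c, d)` of points of `Q` with
`a - b = c - d`. -/
noncomputable def energy (Q : Finset (ℝ × ℝ)) : ℕ :=
  (((Q ×ˢ Q) ×ˢ (Q ×ˢ Q)).filter
    (fun q : ((ℝ × ℝ) × (ℝ × ℝ)) × ((ℝ × ℝ) × (ℝ × ℝ)) => q.1.1 - q.1.2 = q.2.1 - q.2.2)).card

/-- For all `K`, `d` and `ε > 0` there are `c > 0` and `M` such that the following holds for every
set `P` of `n ≥ 2` points of the plane and every subset `Q` of `P` of additive energy at least
`|Q| ^ 3 / K`: if `P` spans at most `c |Q|` distinct distances, then every curve given by a nonzero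
polynomial of degree at most `d` contains at most `M n ^ (1 / 2 + ε)` points of `P`. -/
theorem result (K : ℝ) (d : ℕ) (ε : ℝ) (hε : 0 < ε) :
    ∃ c M : ℝ, 0 < c ∧ ∀ P Q : Finset (ℝ × ℝ), 2 ≤ P.card → Q ⊆ P →
      (Q.card : ℝ) ^ 3 ≤ K * (energy Q : ℝ) →
      (numDist P : ℝ) ≤ c * (Q.card : ℝ) →
      ∀ f : MvPolynomial (Fin 2) ℝ, f ≠ 0 → f.totalDegree ≤ d →
        ((P.filter (fun x : ℝ × ℝ => MvPolynomial.eval ![x.1, x.2] f = 0)).card : ℝ)
          ≤ M * (P.card : ℝ) ^ ((1 : ℝ) / 2 + ε) := by
  obtain ⟨c, M, hc, -, h⟩ := Pool.Agent.W_96b415_h42.dense_energy K d ε hε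
  exact ⟨c, M, hc, h⟩

end Pool.Agent.Results.MP_96b415_co.LargeEnergy
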