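import Mathlib
import Pool.Agent.W_96b415_h42.MainS

/-!
# Few distinct distances: points of a subset of a progression on a curve

Only the subset `S` of `P` whose points on the curve are counted is assumed to lie in a progression
of bounded rank and polynomial size; `P` is arbitrary.  For a line one counts quadruples
`|x q| = |x' q'|` with `x, x'` in `S` on the line and `q, q'` in `P`: for fixed `q, q'` the pair
`(x - x', x + x')` lies on a hyperbola with arbitrary centre, on which a progression has few points
(Cramer's rule reduces this to a divisor bound of Chang type).  For the other curves one uses the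
differences of points of `S`.
-/

set_option autoImplicit false

namespace Pool.Agent.Results.MP_96b415_co.ProgressionSubsets

/-- The number of distinct distances spanned by `P` (counted through their squares). -/
noncomputable def numDist (P : Finset (ℝ × ℝ)) : ℕ :=
  (P.offDiag.image (fun pq : (ℝ × ℝ) × (ℝ × ℝ) =>
    (pq.1.1 - pq.2.1) ^ 2 + (pq.1.2 - pq.2.2) ^ 2)).card

/-- `S` is contained in a generalized arithmetic progression
`{o + x 1 • a 1 + ... + x r • a r : x i ∈ ℤ, |x i| ≤ H}` of rank `r` in the plane; the base
point `o` and the vectors `a i` are arbitrary. -/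
def InProgression (r : ℕ) (H : ℝ) (S : Finset (ℝ × ℝ)) : Prop :=
  ∃ (o : ℝ × ℝ) (a : Fin r → ℝ × ℝ), ∀ p ∈ S, ∃ x : Fin r → ℤ,
    (∀ i, |((x i : ℤ) : ℝ)| ≤ H) ∧ p = o + ∑ i, ((x i : ℤ) : ℝ) • a i

/-- For all `C`, `A`, `r`, `d` and `ε > 0` there is `M` such that the following holds for every set
`P` of `n ≥ 2` points of the plane which spans at most `n / 6` distinct distances, or at most
`C n / √(log n)` distinct distances, and every subset `S` of `P` contained in a generalized
arithmetic progression of rank `r` with coefficients bounded by `n ^ A`: every curve given by a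
nonzero polynomial of degree at most `d` contains at most `M n ^ (1 / 2 + ε)` points of `S`. -/
theorem result (C A : ℝ) (r d : ℕ) (ε : ℝ) (hε : 0 < ε) :
    ∃ M : ℝ, ∀ P S : Finset (ℝ × ℝ), 2 ≤ P.card →
      ((numDist P : ℝ) ≤ (P.card : ℝ) / 6 ∨
        (numDist P : ℝ) ≤ C * (P.card : ℝ) / Real.sqrt (Real.log (P.card : ℝ))) →
      S ⊆ P → InProgression r ((P.card : ℝ) ^ A) S →
      ∀ f : MvPolynomial (Fin 2) ℝ, f ≠ 0 → f.totalDegree ≤ d →
        ((S.filter (fun x : ℝ × ℝ => MvPolynomial.eval ![x.1, x.2] f = 0)).card : ℝ)
          ≤ M * (P.card : ℝ) ^ ((1 : ℝ) / 2 + ε) := by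
  obtain ⟨M, -, h⟩ := Pool.Agent.W_96b415_h42.mainS C A r d ε hε
  exact ⟨M, fun P S hP hD => h P hP hD S⟩

end Pool.Agent.Results.MP_96b415_co.ProgressionSubsets
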